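import Pool.Agent.N154.CN.Final

/-!
# A Kobayashi hyperbolic surface with a curve of negative conormal intersection number

There are a smooth connected projective surface `X` (a complete intersection in `P² × P²`), which is
Kobayashi hyperbolic, and an irreducible closed curve `Z` in `X` such that the intersection number
of the conormal variety `T*_Z X` with the zero section `T*_X X` of the cotangent bundle `T*X` is
`-16`. All the notions are defined in `Pool.Agent.N154.CN.Defs`.
-/

set_option autoImplicit false

namespace Pool.Agent.Results.MP_225e67_ag.NegativeConormal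

open Pool.Agent.N154.CN

theorem result : ∃ X Z : ClosedSet,
    (X.SmoothSurface ∧ X.Connected ∧ KobayashiHyperbolic X.points) ∧
    (Z.points ⊆ X.points ∧ Z.Irred) ∧
    IntersectionNumber X Z (-16) := by
  obtain ⟨γ, hγ⟩ := exists_good
  obtain ⟨ζ, hζ⟩ := IsAlgClosed.exists_pow_nat_eq (-1 : ℂ) (n := 4) (by norm_num)
  exact ⟨XX γ, ZZ ζ, ⟨XX_smooth hγ, XX_connected hγ, XX_hyperbolic hγ.ne⟩,
    ⟨ZZ_points hζ, ZZ_irred ζ⟩, ZZ_number hζ⟩

end Pool.Agent.Results.MP_225e67_ag.NegativeConormal
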